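import Pool.Agent.H5.EF.Stm

/-!
# Crew EF, part EX: existence for the singular initial value problem with Lipschitz `F`
-/

set_option autoImplicit false

open Set Filter Topology MeasureTheory

namespace H68.EF

open H5.EF

section
variable (m : ℕ) (F : ℝ → ℝ → ℝ) (c R : ℝ)

/-- the right-hand side, extended in `r` -/
noncomputable def GG (y : ℝ → ℝ) (τ : ℝ) : ℝ := F (max 0 (min R τ)) (y τ)

noncomputable def II (y : ℝ → ℝ) (t : ℝ) : ℝ := ∫ τ in (0 : ℝ)..t, gg m τ * GG F R y τ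

noncomputable def ZZ (y : ℝ → ℝ) (t : ℝ) : ℝ := if t ≤ 0 then 0 else II m F R y t / gg m t

noncomputable def TT (y : ℝ → ℝ) (r : ℝ) : ℝ := c - ∫ t in (0 : ℝ)..r, ZZ m F R y t

end

variable {m : ℕ} {F : ℝ → ℝ → ℝ} {c R L : ℝ}

theorem GG_cont (hR : 0 < R) (hF : ContinuousOn (fun q : ℝ × ℝ => F q.1 q.2) (Icc 0 R ×ˢ univ))
    {y : ℝ → ℝ} (hy : Continuous y) : Continuous (GG F R y) := by
  have h1 : Continuous (fun τ : ℝ => ((max 0 (min R τ), y τ) : ℝ × ℝ)) := by fun_prop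
  exact hF.comp_continuous h1 (fun τ => ⟨⟨le_max_left _ _, max_le hR.le (min_le_left _ _)⟩, mem_univ _⟩)

theorem GG_eq {y : ℝ → ℝ} {r : ℝ} (h0 : 0 ≤ r) (h1 : r ≤ R) : GG F R y r = F r (y r) := by
  unfold GG
  rw [min_eq_right h1, max_eq_right h0]

theorem II_deriv (hR : 0 < R) (hF : ContinuousOn (fun q : ℝ × ℝ => F q.1 q.2) (Icc 0 R ×ˢ univ))
    {y : ℝ → ℝ} (hy : Continuous y) (t : ℝ) : HasDerivAt (II m F R y) (gg m t * GG F R y t) t := by
  have h1 : Continuous (fun τ => gg m τ * GG F R y τ) := (gg_cont m).mul (GG_cont hR hF hy)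
  exact intervalIntegral.integral_hasDerivAt_right (h1.intervalIntegrable _ _)
    (h1.stronglyMeasurableAtFilter _ _) h1.continuousAt

theorem ZZ_pos {y : ℝ → ℝ} {t : ℝ} (ht : 0 < t) : ZZ m F R y t = II m F R y t / gg m t := by
  unfold ZZ
  rw [if_neg (not_le.mpr ht)]

theorem ZZ_zero {y : ℝ → ℝ} : ZZ m F R y 0 = 0 := by
  unfold ZZ
  rw [if_pos le_rfl]

/-- bound of `ZZ` near zero -/
theorem ZZ_bound (hR : 0 < R) (hF : ContinuousOn (fun q : ℝ × ℝ => F q.1 q.2) (Icc 0 R ×ˢ univ))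
    {y : ℝ → ℝ} (hy : Continuous y) : ∃ C : ℝ, 0 ≤ C ∧ ∀ t, |t| ≤ 1 → |ZZ m F R y t| ≤ C * |t| := by
  obtain ⟨C, hC⟩ := (isCompact_Icc (a := (0 : ℝ)) (b := 1)).exists_bound_of_continuousOn
    (GG_cont hR hF hy).continuousOn
  have hC0 : 0 ≤ C := (norm_nonneg _).trans (hC 0 ⟨le_rfl, zero_le_one⟩)
  refine ⟨C, hC0, ?_⟩
  intro t ht
  rcases le_or_gt t 0 with h | h
  · unfold ZZ
    rw [if_pos h, abs_zero]
    positivity
  · rw [ZZ_pos h, abs_div, abs_of_pos (gg_pos h), div_le_iff₀ (gg_pos h)]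
    have ht1 : t ≤ 1 := by rwa [abs_of_pos h] at ht
    have h1 : ‖∫ τ in (0 : ℝ)..t, gg m τ * GG F R y τ‖ ≤ (gg m t * C) * |t - 0| := by
      apply intervalIntegral.norm_integral_le_of_norm_le_const
      intro τ hτ
      rw [uIoc_of_le h.le] at hτ
      rw [norm_mul]
      have h2 : ‖gg m τ‖ ≤ gg m t := by
        rw [Real.norm_of_nonneg (gg_pos hτ.1).le]
        exact gg_mono hτ.1.le hτ.2
      exact mul_le_mul h2 (hC τ ⟨hτ.1.le, hτ.2.trans ht1⟩) (norm_nonneg _) (gg_pos h).le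
    rw [Real.norm_eq_abs, sub_zero] at h1
    unfold II
    linarith

theorem ZZ_cont (hR : 0 < R) (hF : ContinuousOn (fun q : ℝ × ℝ => F q.1 q.2) (Icc 0 R ×ˢ univ))
    {y : ℝ → ℝ} (hy : Continuous y) : Continuous (ZZ m F R y) := by
  rw [continuous_iff_continuousAt]
  intro t
  rcases lt_trichotomy t 0 with h | h | h
  · have h1 : ZZ m F R y =ᶠ[𝓝 t] fun _ => 0 := by
      filter_upwards [Iio_mem_nhds h] with s hs
      unfold ZZ
      rw [if_pos (le_of_lt hs)]
    exact continuousAt_const.congr h1.symm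
  · subst h
    obtain ⟨C, hC0, hC⟩ := ZZ_bound (m := m) hR hF hy
    unfold ContinuousAt
    rw [ZZ_zero]
    apply squeeze_zero_norm' (a := fun t : ℝ => C * |t|)
    · filter_upwards [Metric.ball_mem_nhds (0 : ℝ) one_pos] with s hs
      rw [Metric.mem_ball, Real.dist_eq, sub_zero] at hs
      rw [Real.norm_eq_abs]
      exact hC s hs.le
    · have : Tendsto (fun t : ℝ => C * |t|) (𝓝 0) (𝓝 (C * |0|)) :=
        (continuous_const.mul continuous_abs).tendsto 0
      simpa using this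
  · have h1 : ZZ m F R y =ᶠ[𝓝 t] fun s => II m F R y s / gg m s := by
      filter_upwards [Ioi_mem_nhds h] with s hs
      exact ZZ_pos hs
    exact ContinuousAt.congr ((II_deriv hR hF hy t).continuousAt.div (gg_cont m).continuousAt
      (gg_pos h).ne') h1.symm

theorem TT_deriv (hR : 0 < R) (hF : ContinuousOn (fun q : ℝ × ℝ => F q.1 q.2) (Icc 0 R ×ˢ univ))
    {y : ℝ → ℝ} (hy : Continuous y) (r : ℝ) : HasDerivAt (TT m F c R y) (-ZZ m F R y r) r := by
  have h1 := ZZ_cont (m := m) hR hF hy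
  have h2 := intervalIntegral.integral_hasDerivAt_right (h1.intervalIntegrable 0 r)
    (h1.stronglyMeasurableAtFilter _ _) h1.continuousAt
  have h3 := h2.const_sub c
  exact h3

/-- integral of a function with exponential bound -/
theorem int_bound {f : ℝ → ℝ} {A l t : ℝ} (hA : 0 ≤ A) (hl : 0 < l) (ht : 0 ≤ t)
    (hf : ∀ τ ∈ Ioc 0 t, |f τ| ≤ A * Real.exp (l * τ)) :
    |∫ τ in (0 : ℝ)..t, f τ| ≤ A / l * Real.exp (l * t) := by
  have hc : Continuous (fun τ : ℝ => A * Real.exp (l * τ)) := by fun_prop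
  have h1 : ‖∫ τ in (0 : ℝ)..t, f τ‖ ≤ ∫ τ in (0 : ℝ)..t, A * Real.exp (l * τ) := by
    apply intervalIntegral.norm_integral_le_of_norm_le ht
    · exact Filter.Eventually.of_forall (fun τ hτ => hf τ hτ)
    · exact hc.intervalIntegrable _ _
  have h2 : ∫ τ in (0 : ℝ)..t, A * Real.exp (l * τ) =
      A / l * Real.exp (l * t) - A / l * Real.exp (l * 0) := by
    apply intervalIntegral.integral_eq_sub_of_hasDerivAt
    · intro τ _
      have h3 : HasDerivAt (fun τ : ℝ => l * τ) l τ := by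
        simpa using (hasDerivAt_id τ).const_mul l
      have h4 := (h3.exp).const_mul (A / l)
      refine h4.congr_deriv ?_
      field_simp
    · exact hc.intervalIntegrable _ _
  rw [h2, Real.norm_eq_abs] at h1
  have h5 : 0 ≤ A / l * Real.exp (l * 0) := by positivity
  linarith

theorem ZZ_diff (hR : 0 < R) (hL : 0 ≤ L)
    (hF : ContinuousOn (fun q : ℝ × ℝ => F q.1 q.2) (Icc 0 R ×ˢ univ))
    (hLip : ∀ r ∈ Icc 0 R, ∀ x y : ℝ, |F r x - F r y| ≤ L * |x - y|)
    {y1 y2 : ℝ → ℝ} (h1 : Continuous y1) (h2 : Continuous y2) {d l : ℝ} (hd : 0 ≤ d) (hl : 0 < l)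
    (hdif : ∀ τ ∈ Icc 0 R, |y1 τ - y2 τ| ≤ d * Real.exp (l * τ)) {t : ℝ} (ht : t ∈ Icc 0 R) :
    |ZZ m F R y1 t - ZZ m F R y2 t| ≤ L * d / l * Real.exp (l * t) := by
  rcases eq_or_lt_of_le ht.1 with h | h
  · rw [← h, ZZ_zero, ZZ_zero, sub_zero, abs_zero]
    positivity
  · rw [ZZ_pos h, ZZ_pos h, ← sub_div, abs_div, abs_of_pos (gg_pos h), div_le_iff₀ (gg_pos h)]
    have hc1 : Continuous (fun τ => gg m τ * GG F R y1 τ) := (gg_cont m).mul (GG_cont hR hF h1)
    have hc2 : Continuous (fun τ => gg m τ * GG F R y2 τ) := (gg_cont m).mul (GG_cont hR hF h2)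
    have h3 : II m F R y1 t - II m F R y2 t =
        ∫ τ in (0 : ℝ)..t, (gg m τ * GG F R y1 τ - gg m τ * GG F R y2 τ) := by
      unfold II
      rw [intervalIntegral.integral_sub (hc1.intervalIntegrable _ _) (hc2.intervalIntegrable _ _)]
    rw [h3]
    have h4 : |∫ τ in (0 : ℝ)..t, (gg m τ * GG F R y1 τ - gg m τ * GG F R y2 τ)| ≤
        (gg m t * (L * d)) / l * Real.exp (l * t) := by
      apply int_bound (by have := (gg_pos (m := m) h).le; positivity) hl ht.1
      intro τ hτ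
      have hτR : τ ∈ Icc 0 R := ⟨hτ.1.le, hτ.2.trans ht.2⟩
      rw [← mul_sub, abs_mul, abs_of_pos (gg_pos hτ.1), GG_eq hτR.1 hτR.2, GG_eq hτR.1 hτR.2]
      have h5 : |F τ (y1 τ) - F τ (y2 τ)| ≤ L * (d * Real.exp (l * τ)) :=
        (hLip τ hτR _ _).trans (mul_le_mul_of_nonneg_left (hdif τ hτR) hL)
      have h6 := gg_mono (m := m) hτ.1.le hτ.2
      calc gg m τ * |F τ (y1 τ) - F τ (y2 τ)| ≤ gg m t * (L * (d * Real.exp (l * τ))) :=
            mul_le_mul h6 h5 (abs_nonneg _) (gg_pos h).le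
        _ = gg m t * (L * d) * Real.exp (l * τ) := by ring
    refine h4.trans (le_of_eq ?_)
    ring

theorem TT_diff (hR : 0 < R) (hL : 0 ≤ L)
    (hF : ContinuousOn (fun q : ℝ × ℝ => F q.1 q.2) (Icc 0 R ×ˢ univ))
    (hLip : ∀ r ∈ Icc 0 R, ∀ x y : ℝ, |F r x - F r y| ≤ L * |x - y|)
    {y1 y2 : ℝ → ℝ} (h1 : Continuous y1) (h2 : Continuous y2) {d l : ℝ} (hd : 0 ≤ d) (hl : 0 < l)
    (hdif : ∀ τ ∈ Icc 0 R, |y1 τ - y2 τ| ≤ d * Real.exp (l * τ)) {r : ℝ} (hr : r ∈ Icc 0 R) :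
    |TT m F c R y1 r - TT m F c R y2 r| ≤ L * d / l / l * Real.exp (l * r) := by
  have hc1 := ZZ_cont (m := m) hR hF h1
  have hc2 := ZZ_cont (m := m) hR hF h2
  have h3 : TT m F c R y1 r - TT m F c R y2 r =
      -∫ t in (0 : ℝ)..r, (ZZ m F R y1 t - ZZ m F R y2 t) := by
    unfold TT
    rw [intervalIntegral.integral_sub (hc1.intervalIntegrable _ _) (hc2.intervalIntegrable _ _)]
    ring
  rw [h3, abs_neg]
  apply int_bound (by positivity) hl hr.1
  intro t ht
  exact ZZ_diff hR hL hF hLip h1 h2 hd hl hdif ⟨ht.1.le, ht.2.trans hr.2⟩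

theorem t_EX : S_EX := by
  intro m F L c R _ hR hL hF hLip
  set l : ℝ := L + 1 with hl
  have hl0 : 0 < l := by linarith
  -- extension of a function on `[0,R]`
  let ext : C(Icc 0 R, ℝ) → ℝ → ℝ := fun w t => Real.exp (l * t) * IccExtend hR.le w t
  have hext : ∀ w, Continuous (ext w) := by
    intro w
    have h1 : Continuous (IccExtend hR.le w) := w.continuous.Icc_extend'
    exact (by fun_prop : Continuous fun t : ℝ => Real.exp (l * t)).mul h1
  have hextv : ∀ (w : C(Icc 0 R, ℝ)) (r : ℝ) (hr : r ∈ Icc 0 R),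
      ext w r = Real.exp (l * r) * w ⟨r, hr⟩ := by
    intro w r hr
    change Real.exp (l * r) * IccExtend hR.le w r = _
    rw [IccExtend_of_mem hR.le w hr]
  have hcont : ∀ w, Continuous (TT m F c R (ext w)) := fun w =>
    continuous_iff_continuousAt.mpr fun r => (TT_deriv hR hF (hext w) r).continuousAt
  let S : C(Icc 0 R, ℝ) → C(Icc 0 R, ℝ) := fun w =>
    ⟨fun r => Real.exp (-(l * r)) * TT m F c R (ext w) r,
      ((by fun_prop : Continuous fun r : Icc 0 R => Real.exp (-(l * (r : ℝ))))).mul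
        ((hcont w).comp continuous_subtype_val)⟩
  have hS : ContractingWith (1 / 4) S := by
    constructor
    · rw [← NNReal.coe_lt_coe]; norm_num
    · apply LipschitzWith.of_dist_le_mul
      intro w1 w2
      rw [ContinuousMap.dist_le (by positivity)]
      intro r
      have hd : 0 ≤ dist w1 w2 := dist_nonneg
      have h1 : ∀ τ ∈ Icc 0 R, |ext w1 τ - ext w2 τ| ≤ dist w1 w2 * Real.exp (l * τ) := by
        intro τ hτ
        rw [hextv w1 τ hτ, hextv w2 τ hτ, ← mul_sub, abs_mul, abs_of_pos (Real.exp_pos _), mul_comm]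
        have h2 := ContinuousMap.dist_apply_le_dist (f := w1) (g := w2) ⟨τ, hτ⟩
        rw [Real.dist_eq] at h2
        exact mul_le_mul_of_nonneg_right h2 (Real.exp_pos _).le
      have h2 := TT_diff (m := m) (c := c) hR hL hF hLip (hext w1) (hext w2) hd hl0 h1 r.2
      change dist (Real.exp (-(l * r)) * TT m F c R (ext w1) r)
        (Real.exp (-(l * r)) * TT m F c R (ext w2) r) ≤ _
      rw [Real.dist_eq, ← mul_sub, abs_mul, abs_of_pos (Real.exp_pos _)]
      have h3 : Real.exp (-(l * r)) * |TT m F c R (ext w1) r - TT m F c R (ext w2) r| ≤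
          Real.exp (-(l * r)) * (L * dist w1 w2 / l / l * Real.exp (l * r)) :=
        mul_le_mul_of_nonneg_left h2 (Real.exp_pos _).le
      have h4 : Real.exp (-(l * r)) * (L * dist w1 w2 / l / l * Real.exp (l * r)) =
          L / (l * l) * dist w1 w2 := by
        have h5 : Real.exp (-(l * r)) * Real.exp (l * r) = 1 := by
          rw [← Real.exp_add]; simp
        calc Real.exp (-(l * r)) * (L * dist w1 w2 / l / l * Real.exp (l * r))
            = (Real.exp (-(l * r)) * Real.exp (l * r)) * (L * dist w1 w2 / l / l) := by ring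
          _ = L * dist w1 w2 / l / l := by rw [h5, one_mul]
          _ = L / (l * l) * dist w1 w2 := by field_simp
      have h6 : L / (l * l) ≤ 1 / 4 := by
        rw [div_le_iff₀ (by positivity), hl]
        nlinarith [sq_nonneg (L - 1)]
      have h7 : ((1 / 4 : NNReal) : ℝ) = 1 / 4 := by norm_num
      rw [h7]
      rw [h4] at h3
      exact h3.trans (mul_le_mul_of_nonneg_right h6 hd)
  set w := ContractingWith.fixedPoint S hS with hw
  have hfix : S w = w := hS.fixedPoint_isFixedPt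
  have hTy : ∀ r ∈ Icc 0 R, TT m F c R (ext w) r = ext w r := by
    intro r hr
    have h1 : (S w) ⟨r, hr⟩ = w ⟨r, hr⟩ := by rw [hfix]
    have h2 : Real.exp (-(l * r)) * TT m F c R (ext w) r = w ⟨r, hr⟩ := h1
    rw [hextv w r hr, ← h2, ← mul_assoc, ← Real.exp_add]
    simp
  refine ⟨ext w, fun t => -ZZ m F R (ext w) t, ?_, ?_, (hext w).continuousOn,
    (ZZ_cont hR hF (hext w)).neg.continuousOn, ?_, ?_⟩
  · rw [← hTy 0 ⟨le_rfl, hR.le⟩]
    unfold TT
    rw [intervalIntegral.integral_same, sub_zero]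
  · simp only [ZZ_zero, neg_zero]
  · intro r hr
    have h1 : ext w =ᶠ[𝓝 r] TT m F c R (ext w) := by
      filter_upwards [Ioo_mem_nhds hr.1 hr.2] with s hs
      exact (hTy s ⟨hs.1.le, hs.2.le⟩).symm
    exact (TT_deriv hR hF (hext w) r).congr_of_eventuallyEq h1
  · intro r hr
    have h1 : (fun t => -ZZ m F R (ext w) t) =ᶠ[𝓝 r] fun t => -(II m F R (ext w) t / gg m t) := by
      filter_upwards [Ioi_mem_nhds hr.1] with s hs
      rw [ZZ_pos hs]
    have h2 := ((II_deriv (m := m) hR hF (hext w) r).div (gg_deriv (m := m) hr.1)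
      (gg_pos (m := m) hr.1).ne').neg
    refine (h2.congr_of_eventuallyEq h1).congr_deriv ?_
    have h3 := (gg_pos (m := m) hr.1).ne'
    rw [ZZ_pos hr.1, GG_eq hr.1.le hr.2.le]
    field_simp
    ring

end H68.EF
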