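import Pool.Agent.H5.EF.Stm

/-!
# Crew EF, part GRO: Gronwall for the singular system
-/

set_option autoImplicit false

open Set Filter Topology MeasureTheory

namespace H68.EF

open H5.EF

/-- a function with nonnegative derivative on `(0, R)` -/
theorem le_of_deriv {R : ℝ} {f f' : ℝ → ℝ} (hc : ContinuousOn f (Icc 0 R))
    (hd : ∀ r ∈ Ioo 0 R, HasDerivAt f (f' r) r) (hn : ∀ r ∈ Ioo 0 R, 0 ≤ f' r) {r : ℝ}
    (hr : r ∈ Icc 0 R) : f 0 ≤ f r := by
  have h1 : MonotoneOn f (Icc 0 R) := by
    apply monotoneOn_of_deriv_nonneg (convex_Icc 0 R) hc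
    · rw [interior_Icc]
      intro t ht
      exact (hd t ht).differentiableAt.differentiableWithinAt
    · rw [interior_Icc]
      intro t ht
      rw [(hd t ht).deriv]
      exact hn t ht
  exact h1 ⟨le_rfl, hr.1.trans hr.2⟩ hr hr.1

theorem t_GRO : S_GRO := by
  intro m R L ε d D E H hm hR hL hε hD hE hE0 hD0 hDd hEd hH
  have hd : 0 ≤ d := (abs_nonneg _).trans hD0
  -- extension of `D`
  let P : ℝ → ℝ := fun τ => max 0 (min R τ)
  have hP : Continuous P := by fun_prop
  have hPm : ∀ τ, P τ ∈ Icc 0 R := fun τ => ⟨le_max_left _ _, max_le hR.le (min_le_left _ _)⟩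
  have hPe : ∀ τ ∈ Icc 0 R, P τ = τ := by
    intro τ hτ
    change max 0 (min R τ) = τ
    rw [min_eq_right hτ.2, max_eq_right hτ.1]
  have hDc : Continuous (fun τ => D (P τ)) := hD.comp_continuous hP hPm
  have hjc : Continuous (fun τ => L * |D (P τ)| + ε) :=
    (continuous_const.mul hDc.abs).add continuous_const
  set J : ℝ → ℝ := fun t => ∫ τ in (0 : ℝ)..t, (L * |D (P τ)| + ε) with hJ
  have hJd : ∀ t, HasDerivAt J (L * |D (P t)| + ε) t := fun t =>
    intervalIntegral.integral_hasDerivAt_right (hjc.intervalIntegrable _ _)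
      (hjc.stronglyMeasurableAtFilter _ _) hjc.continuousAt
  have hJc : Continuous J := continuous_iff_continuousAt.mpr fun t => (hJd t).continuousAt
  have hJ0 : J 0 = 0 := by rw [hJ]; exact intervalIntegral.integral_same
  have hJd' : ∀ t ∈ Ioo 0 R, HasDerivAt J (L * |D t| + ε) t := by
    intro t ht
    have h := hJd t
    rwa [hPe t ⟨ht.1.le, ht.2.le⟩] at h
  have hjn : ∀ t, 0 ≤ L * |D t| + ε := fun t => by positivity
  have hJn : ∀ t ∈ Icc 0 R, 0 ≤ J t := by
    intro t ht
    have h := le_of_deriv hJc.continuousOn hJd' (fun r _ => hjn r) ht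
    rwa [hJ0] at h
  -- `|E| ≤ J`
  have hgc := gg_cont m
  have hgE : ∀ r ∈ Ioo 0 R, HasDerivAt (fun r => gg m r * E r) (-(gg m r * H r)) r := by
    intro r hr
    refine ((gg_deriv (m := m) hr.1).mul (hEd r hr)).congr_deriv ?_
    ring
  have hgJ : ∀ r ∈ Ioo 0 R, HasDerivAt (fun r => gg m r * J r)
      (gg m r * hh m r * J r + gg m r * (L * |D r| + ε)) r := by
    intro r hr
    exact (gg_deriv (m := m) hr.1).mul (hJd' r hr)
  have hgEc : ContinuousOn (fun r => gg m r * E r) (Icc 0 R) := hgc.continuousOn.mul hE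
  have hgJc : ContinuousOn (fun r => gg m r * J r) (Icc 0 R) := (hgc.mul hJc).continuousOn
  have hEJ : ∀ r ∈ Icc 0 R, |E r| ≤ J r := by
    intro r hr
    rcases eq_or_lt_of_le hr.1 with h0 | h0
    · rw [← h0, hE0, hJ0, abs_zero]
    · have h1 := le_of_deriv (hgJc.sub hgEc) (fun r hr => (hgJ r hr).sub (hgE r hr)) (by
        intro t ht
        have h2 := abs_le.mp (hH t ht)
        have h3 := (gg_pos (m := m) ht.1)
        have h4 := hh_nonneg (m := m) ht.1
        have h5 := hJn t ⟨ht.1.le, ht.2.le⟩
        have h6 : 0 ≤ gg m t * hh m t * J t := by positivity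
        have h7 : 0 ≤ gg m t * ((L * |D t| + ε) + H t) := mul_nonneg h3.le (by linarith)
        nlinarith) hr
      have h2 := le_of_deriv (hgJc.add hgEc) (fun r hr => (hgJ r hr).add (hgE r hr)) (by
        intro t ht
        have h2 := abs_le.mp (hH t ht)
        have h3 := (gg_pos (m := m) ht.1)
        have h4 := hh_nonneg (m := m) ht.1
        have h5 := hJn t ⟨ht.1.le, ht.2.le⟩
        have h6 : 0 ≤ gg m t * hh m t * J t := by positivity
        have h7 : 0 ≤ gg m t * ((L * |D t| + ε) - H t) := mul_nonneg h3.le (by linarith)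
        nlinarith) hr
      simp only [Pi.sub_apply, Pi.add_apply, hE0, hJ0, mul_zero, sub_zero, add_zero] at h1 h2
      have h3 := gg_pos (m := m) h0
      rw [abs_le]
      constructor
      · by_contra hc
        push Not at hc
        nlinarith
      · by_contra hc
        push Not at hc
        nlinarith
  -- `|D| ≤ d + r J`
  have hDJ : ∀ r ∈ Icc 0 R, |D r| ≤ d + R * J r := by
    intro r hr
    have hrJ : ∀ t ∈ Ioo 0 R, HasDerivAt (fun t => t * J t) (J t + t * (L * |D t| + ε)) t := by
      intro t ht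
      refine ((hasDerivAt_id t).mul (hJd' t ht)).congr_deriv ?_
      simp
    have hrJc : ContinuousOn (fun t => t * J t) (Icc 0 R) := (continuous_id.mul hJc).continuousOn
    have h1 := le_of_deriv (hrJc.sub hD) (fun r hr => (hrJ r hr).sub (hDd r hr)) (by
      intro t ht
      have h2 := abs_le.mp (hEJ t ⟨ht.1.le, ht.2.le⟩)
      have h3 := mul_nonneg ht.1.le (hjn t)
      linarith) hr
    have h2 := le_of_deriv (hrJc.add hD) (fun r hr => (hrJ r hr).add (hDd r hr)) (by
      intro t ht
      have h2 := abs_le.mp (hEJ t ⟨ht.1.le, ht.2.le⟩)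
      have h3 := mul_nonneg ht.1.le (hjn t)
      linarith) hr
    simp only [Pi.sub_apply, Pi.add_apply, zero_mul, zero_sub, zero_add] at h1 h2
    have h3 := abs_le.mp hD0
    have h4 : r * J r ≤ R * J r := mul_le_mul_of_nonneg_right hr.2 (hJn r hr)
    rw [abs_le]
    constructor <;> linarith
  -- Gronwall
  have hV : ∀ r ∈ Icc 0 R, d + R * J r ≤ (d + ε * R ^ 2) * Real.exp (L * R ^ 2) := by
    intro r hr
    have hexp : ∀ t : ℝ, HasDerivAt (fun t : ℝ => Real.exp (-(L * R * t)))
        (Real.exp (-(L * R * t)) * (-(L * R))) t := by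
      intro t
      have h1 : HasDerivAt (fun t : ℝ => -(L * R * t)) (-(L * R)) t := by
        have h0 : HasDerivAt (fun t : ℝ => L * R * t) (L * R) t := by
          simpa using (hasDerivAt_id t).const_mul (L * R)
        exact h0.neg
      exact h1.exp
    have hVd : ∀ t ∈ Ioo 0 R, HasDerivAt (fun t => (d + ε * R * t) -
        (d + R * J t) * Real.exp (-(L * R * t)))
        (ε * R - ((R * (L * |D t| + ε)) * Real.exp (-(L * R * t)) +
          (d + R * J t) * (Real.exp (-(L * R * t)) * (-(L * R))))) t := by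
      intro t ht
      have h1 : HasDerivAt (fun t : ℝ => d + ε * R * t) (ε * R) t := by
        simpa using ((hasDerivAt_id t).const_mul (ε * R)).const_add d
      have h2 : HasDerivAt (fun t : ℝ => d + R * J t) (R * (L * |D t| + ε)) t :=
        ((hJd' t ht).const_mul R).const_add d
      exact h1.sub (h2.mul (hexp t))
    have hVc : ContinuousOn (fun t => (d + ε * R * t) -
        (d + R * J t) * Real.exp (-(L * R * t))) (Icc 0 R) := by
      apply Continuous.continuousOn
      fun_prop
    have h1 := le_of_deriv hVc hVd (by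
      intro t ht
      have h2 := hDJ t ⟨ht.1.le, ht.2.le⟩
      have h3 : 0 < Real.exp (-(L * R * t)) := Real.exp_pos _
      have h4 : Real.exp (-(L * R * t)) ≤ 1 := by
        rw [Real.exp_le_one_iff]
        have : 0 ≤ L * R * t := mul_nonneg (mul_nonneg hL hR.le) ht.1.le
        linarith
      have h5 : R * (L * |D t| + ε) - L * R * (d + R * J t) ≤ R * ε := by
        have : R * L * |D t| ≤ R * L * (d + R * J t) :=
          mul_le_mul_of_nonneg_left h2 (by positivity)
        nlinarith
      have h6 : (R * (L * |D t| + ε) - L * R * (d + R * J t)) * Real.exp (-(L * R * t)) ≤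
          R * ε * Real.exp (-(L * R * t)) := mul_le_mul_of_nonneg_right h5 h3.le
      have h7 : R * ε * Real.exp (-(L * R * t)) ≤ R * ε * 1 :=
        mul_le_mul_of_nonneg_left h4 (by positivity)
      nlinarith) hr
    simp only [hJ0, mul_zero, add_zero, neg_zero, Real.exp_zero, mul_one, sub_self] at h1
    have h2 : (d + R * J r) * Real.exp (-(L * R * r)) ≤ d + ε * R ^ 2 := by
      have : ε * R * r ≤ ε * R * R := mul_le_mul_of_nonneg_left hr.2 (by positivity)
      nlinarith
    have h3 : d + R * J r = (d + R * J r) * Real.exp (-(L * R * r)) * Real.exp (L * R * r) := by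
      rw [mul_assoc, ← Real.exp_add]
      simp
    rw [h3]
    have h4 : Real.exp (L * R * r) ≤ Real.exp (L * R ^ 2) := by
      apply Real.exp_le_exp.mpr
      have : L * R * r ≤ L * R * R := mul_le_mul_of_nonneg_left hr.2 (by positivity)
      nlinarith
    have h5 : 0 ≤ d + ε * R ^ 2 := by positivity
    calc (d + R * J r) * Real.exp (-(L * R * r)) * Real.exp (L * R * r)
        ≤ (d + ε * R ^ 2) * Real.exp (L * R * r) :=
          mul_le_mul_of_nonneg_right h2 (Real.exp_pos _).le
      _ ≤ _ := mul_le_mul_of_nonneg_left h4 h5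
  set C : ℝ := (d + ε * R ^ 2) * Real.exp (L * R ^ 2) with hC
  have hDC : ∀ r ∈ Icc 0 R, |D r| ≤ C := fun r hr => (hDJ r hr).trans (hV r hr)
  have hJC : ∀ r ∈ Icc 0 R, J r ≤ R * (L * C + ε) := by
    intro r hr
    have h1 := le_of_deriv (f := fun t => t * (L * C + ε) - J t)
      (f' := fun t => (L * C + ε) - (L * |D t| + ε)) (by
        apply Continuous.continuousOn
        fun_prop) (by
        intro t ht
        have h2 : HasDerivAt (fun t : ℝ => t * (L * C + ε)) (L * C + ε) t := by
          simpa using (hasDerivAt_id t).mul_const (L * C + ε)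
        exact h2.sub (hJd' t ht)) (by
        intro t ht
        have h2 : L * |D t| ≤ L * C := mul_le_mul_of_nonneg_left (hDC t ⟨ht.1.le, ht.2.le⟩) hL
        linarith) hr
    simp only [zero_mul, hJ0, sub_zero] at h1
    have h2 : 0 ≤ L * C + ε := by
      have := (abs_nonneg _).trans (hDC r hr)
      positivity
    have h3 : r * (L * C + ε) ≤ R * (L * C + ε) := mul_le_mul_of_nonneg_right hr.2 h2
    linarith
  intro r hr
  exact ⟨hDC r hr, (hEJ r hr).trans (hJC r hr)⟩

end H68.EF
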